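import Pool.Agent.Lib.MP_696deb_nt.Spin.PA

/-! The abstract prime number theorem in the class one modulo four. -/

set_option autoImplicit false

open Finset Filter Topology Complex LSeries Asymptotics
open scoped ComplexOrder

namespace Pool.Agent.Spin.PP

theorem mell (f : ℕ → ℂ) {θ : ℝ} (hθ0 : 0 ≤ θ) (hθ : θ < 1)
    (hO' : (fun n => ∑ k ∈ Icc 1 n, f k) =O[atTop] fun n : ℕ => (n : ℝ) ^ θ) :
    ∃ H : ℂ → ℂ, DifferentiableOn ℂ H {s | θ < s.re} ∧
      ∀ s : ℂ, 1 < s.re → LSeriesSummable f s → LSeries f s = H s := by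
  let S : ℝ → ℂ := fun t => ∑ k ∈ Icc 1 ⌊t⌋₊, f k
  have S0 : ∀ t : ℝ, t < 1 → S t = 0 := fun t ht => by simp [S, Nat.floor_eq_zero.2 ht]
  refine ⟨fun s => s * mellin S (-s), fun s hs => ?_, fun s hs hf => ?_⟩
  · have h := mellin_differentiableAt_of_isBigO_rpow (f := S) (a := -θ) (b := -s.re - 1) (s := -s)
      ?_ ?_ (by simpa using hs) ?_ (by simp)
    · exact (differentiableAt_id.mul (h.comp s differentiableAt_id.neg)).differentiableWithinAt
    · simpa [S] using locallyIntegrableOn_mul_sum_Icc (m := 1) f le_rfl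
        (MeasureTheory.locallyIntegrableOn_const (1 : ℂ)) |>.mono_set Set.Ioi_subset_Ici_self
    · simpa [S, Function.comp_def] using (hO'.comp_tendsto tendsto_nat_floor_atTop).trans <|
        isEquivalent_nat_floor.isBigO.rpow hθ0 (eventually_ge_atTop 0)
    · refine (isBigO_zero _ _).congr' ?_ EventuallyEq.rfl
      filter_upwards [nhdsWithin_le_nhds (Iio_mem_nhds zero_lt_one)] with t ht
      exact (S0 t ht).symm
  · have e1 := LSeries_eq_mul_integral f hθ0 (hθ.trans hs) hf hO'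
    have e2 : mellin S (-s) = ∫ t in Set.Ioi (1 : ℝ), S t * t ^ (-(s + 1)) := by
      rw [mellin, MeasureTheory.setIntegral_eq_of_subset_of_forall_sdiff_eq_zero measurableSet_Ioi
        (Set.Ici_subset_Ioi.2 zero_lt_one) (fun t ht => by
          rw [S0 t (by simpa using ht.2), smul_zero]), MeasureTheory.integral_Ici_eq_integral_Ioi]
      refine MeasureTheory.setIntegral_congr_fun measurableSet_Ioi fun t _ => ?_
      simp only [smul_eq_mul]
      rw [mul_comm, neg_add', sub_eq_add_neg]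
    simp only [e2, S]
    rw [← e1]

/-- The nontrivial character modulo four. -/
def chi (n : ℕ) : ℝ := if n % 4 = 1 then 1 else if n % 4 = 3 then -1 else 0

theorem chi_mul (m n : ℕ) : chi (m * n) = chi m * chi n := by
  have a : m % 4 = 0 ∨ m % 4 = 1 ∨ m % 4 = 2 ∨ m % 4 = 3 := by omega
  have b : n % 4 = 0 ∨ n % 4 = 1 ∨ n % 4 = 2 ∨ n % 4 = 3 := by omega
  rcases a with a | a | a | a <;> rcases b with b | b | b | b <;> simp [chi, Nat.mul_mod, a, b]

theorem chi_abs (n : ℕ) : |chi n| ≤ 1 := by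
  unfold chi
  split_ifs <;> simp

theorem chi_mod {m n : ℕ} (h : m % 4 = n % 4) : chi m = chi n := by simp only [chi, h]

/-- The character as an arithmetic function. -/
def chA : ArithmeticFunction ℝ := ⟨chi, by simp [chi]⟩

theorem chA_apply (n : ℕ) : chA n = chi n := rfl

open ArithmeticFunction in
theorem log_mul' (f g : ArithmeticFunction ℝ) :
    pmul ArithmeticFunction.log (f * g) =
      pmul ArithmeticFunction.log f * g + f * pmul ArithmeticFunction.log g := by
  ext n
  simp only [pmul_apply, mul_apply, ArithmeticFunction.add_apply, mul_sum, ← sum_add_distrib,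
    log_apply]
  refine sum_congr rfl fun y hy => ?_
  obtain ⟨e, n0⟩ := Nat.mem_divisorsAntidiagonal.1 hy
  rw [← e] at n0 ⊢
  rw [Nat.cast_mul, Real.log_mul (by exact_mod_cast left_ne_zero_of_mul n0)
    (by exact_mod_cast right_ne_zero_of_mul n0)]
  ring

open ArithmeticFunction in
theorem chA_mul (f g : ArithmeticFunction ℝ) : pmul chA (f * g) = pmul chA f * pmul chA g := by
  ext n
  simp only [pmul_apply, mul_apply, mul_sum, chA_apply]
  refine sum_congr rfl fun y hy => ?_
  rw [← (Nat.mem_divisorsAntidiagonal.1 hy).1, chi_mul]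
  ring

open ArithmeticFunction in
theorem conv2 {R A : ArithmeticFunction ℝ} (h : pmul ArithmeticFunction.log R = A * R) :
    pmul ArithmeticFunction.log (R * pmul chA R) = (A + pmul chA A) * (R * pmul chA R) := by
  have e : pmul ArithmeticFunction.log (pmul chA R) = pmul chA A * pmul chA R := by
    rw [← chA_mul, ← h]
    ext n
    simp only [pmul_apply]
    ring
  rw [log_mul', h, e]
  ring

theorem nonneg_of_conv {r a : ℕ → ℝ} (r0 : 0 ≤ r 0) (r1 : 0 ≤ r 1) (ha : ∀ n, 0 ≤ a n) (a1 : a 1 = 0)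
    (h : ∀ n : ℕ, n ≠ 0 → Real.log n * r n = ∑ y ∈ n.divisorsAntidiagonal, a y.1 * r y.2) (n : ℕ) :
    0 ≤ r n := by
  induction n using Nat.strong_induction_on with
  | _ n ih =>
    rcases Nat.lt_or_ge n 2 with k | k
    · interval_cases n <;> assumption
    have l : 0 < Real.log n := Real.log_pos (by exact_mod_cast k)
    refine nonneg_of_mul_nonneg_right ?_ l |> fun x => x
    rw [h n (by omega)]
    refine sum_nonneg fun y hy => ?_
    obtain ⟨e, n0⟩ := Nat.mem_divisorsAntidiagonal.1 hy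
    by_cases c : y.1 = 1
    · rw [c, a1, zero_mul]
    · refine mul_nonneg (ha _) (ih _ ?_)
      have : y.1 ≠ 0 := left_ne_zero_of_mul (e ▸ n0)
      have : y.2 ≠ 0 := right_ne_zero_of_mul (e ▸ n0)
      rw [← e]
      exact lt_mul_of_one_lt_left (by omega) (by omega)

theorem landau2 (R A : ArithmeticFunction ℝ) (hr : ∀ n, 0 ≤ R n) (hr1 : 0 < R 1)
    (ha : ∀ n, 0 ≤ A n)
    (hconv : ∀ n : ℕ, n ≠ 0 → Real.log n * R n = ∑ y ∈ n.divisorsAntidiagonal, A y.1 * R y.2)
    (C : ℝ) (hC : ∀ n : ℕ, ∑ k ∈ Icc 1 n, A k ≤ C * n) {θ κ : ℝ} (hθ0 : 0 ≤ θ) (hθ : θ < 1)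
    (hO : (fun n : ℕ => ∑ k ∈ Icc 1 n, R k - κ * n) =O[atTop] fun n => (n : ℝ) ^ θ)
    (hX : (fun n : ℕ => ∑ k ∈ Icc 1 n, chi k * R k) =O[atTop] fun n => (n : ℝ) ^ θ) :
    ∃ B : ℝ, B ≤ 1 ∧
      Tendsto (fun x : ℝ => (∑ k ∈ Icc 1 ⌊x⌋₊, (A k + chi k * A k)) / x) atTop (𝓝 B) := by
  have h0 : ArithmeticFunction.pmul ArithmeticFunction.log R = A * R := by
    ext n
    rcases eq_or_ne n 0 with rfl | n0
    · simp
    · simpa [ArithmeticFunction.mul_apply, ArithmeticFunction.log_apply] using hconv n n0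
  let r2 : ℕ → ℝ := fun n => (R * ArithmeticFunction.pmul chA R) n
  let a2 : ℕ → ℝ := fun n => A n + chi n * A n
  have hc2 : ∀ n : ℕ, n ≠ 0 →
      Real.log n * r2 n = ∑ y ∈ n.divisorsAntidiagonal, a2 y.1 * r2 y.2 := fun n _ => by
    have := congrArg (fun f : ArithmeticFunction ℝ => f n) (conv2 h0)
    simp only [ArithmeticFunction.pmul_apply, ArithmeticFunction.log_apply] at this
    rw [ArithmeticFunction.mul_apply (f := A + _)] at this
    exact this
  have ha2 : ∀ n, 0 ≤ a2 n := fun n => by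
    have := abs_le.1 (chi_abs n)
    have := ha n
    simp only [a2]
    nlinarith
  have a1 : A 1 = 0 := by
    have := hconv 1 one_ne_zero
    simpa [hr1.ne'] using this
  have r21 : 0 < r2 1 := by
    simpa [r2, chA_apply, chi] using hr1.ne'
  have hr2 : ∀ n, 0 ≤ r2 n := nonneg_of_conv (by simp [r2]) r21.le ha2 (by simp [a2, a1]) hc2
  have hC2 : ∀ n : ℕ, ∑ k ∈ Icc 1 n, a2 k ≤ 2 * C * n := fun n => by
    refine le_trans (sum_le_sum (g := fun k => 2 * A k) fun k _ => ?_) ?_
    · have := abs_le.1 (chi_abs k)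
      have := ha k
      simp only [a2]
      nlinarith
    · rw [← mul_sum, mul_assoc]
      linarith [hC n]
  let f : ℕ → ℂ := fun n => (R n : ℂ) - κ
  have hf : ∀ n : ℕ, ∑ k ∈ Icc 1 n, f k = ((∑ k ∈ Icc 1 n, R k - κ * n : ℝ) : ℂ) := by
    intro n; simp [f, sum_sub_distrib, mul_comm]
  obtain ⟨H, hH, eH⟩ := mell f hθ0 hθ (by
    simp only [hf]
    exact Complex.isBigO_ofReal_left.2 hO)
  obtain ⟨G, hG, eG⟩ := mell (fun n => ((chi n * R n : ℝ) : ℂ)) hθ0 hθ (by
    simp only [← Complex.ofReal_sum]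
    exact Complex.isBigO_ofReal_left.2 hX)
  have hrs : ∀ s : ℂ, 1 < s.re → LSeriesSummable (fun n => (R n : ℂ)) s := fun s hs => by
    refine LSeriesSummable_of_sum_norm_bigO_and_nonneg (r := 1) ?_ hr zero_le_one hs
    have h1 : (fun n : ℕ => (n : ℝ) ^ θ) =O[atTop] fun n : ℕ => (n : ℝ) ^ (1 : ℝ) :=
      IsBigO.of_bound 1 (by
        filter_upwards [eventually_ge_atTop 1] with n hn
        rw [Real.norm_of_nonneg (by positivity), Real.norm_of_nonneg (by positivity), one_mul]
        exact Real.rpow_le_rpow_of_exponent_le (by exact_mod_cast hn) hθ.le)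
    have h2 : (fun n : ℕ => κ * (n : ℝ)) =O[atTop] fun n : ℕ => (n : ℝ) ^ (1 : ℝ) := by
      simpa using (isBigO_refl (fun n : ℕ => (n : ℝ)) atTop).const_mul_left κ
    simpa using (hO.trans h1).add h2
  have hxs : ∀ s : ℂ, 1 < s.re → LSeriesSummable (fun n => ((chi n * R n : ℝ) : ℂ)) s :=
    fun s hs => (hrs s hs).norm.of_norm_bounded fun n => norm_term_le s (by
      rw [Complex.norm_real, Complex.norm_real, norm_mul]
      exact mul_le_of_le_one_left (norm_nonneg _) (chi_abs n))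
  have e2 : (fun n => (r2 n : ℂ)) = LSeries.convolution (fun n => (R n : ℂ))
      fun n => ((chi n * R n : ℝ) : ℂ) := by
    funext n
    simp [r2, convolution_def, ArithmeticFunction.mul_apply, chA_apply]
  have hs2 : ∀ s : ℂ, 1 < s.re → LSeriesSummable (fun n => (r2 n : ℂ)) s := fun s hs =>
    e2 ▸ (hrs s hs).convolution (hxs s hs)
  have eL : ∀ s : ℂ, 1 < s.re →
      LSeries (fun n => (r2 n : ℂ)) s = (H s + κ * riemannZeta s) * G s := fun s hs => by
    have s1 : LSeriesSummable ((κ : ℂ) • (1 : ℕ → ℂ)) s := (LSeriesSummable_one_iff.2 hs).smul _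
    have s2 : f = (fun n => (R n : ℂ)) - (κ : ℂ) • (1 : ℕ → ℂ) := by funext n; simp [f]
    have e3 : LSeries f s = LSeries (fun n => (R n : ℂ)) s - κ * riemannZeta s := by
      rw [s2, LSeries_sub (hrs s hs) s1, LSeries_smul, LSeries_one_eq_riemannZeta hs]
    rw [e2, LSeries_convolution' (hrs s hs) (hxs s hs), eG s hs (hxs s hs),
      ← eH s hs (s2 ▸ (hrs s hs).sub s1), e3]
    ring
  have d1 := differentiable_riemannZeta₁.differentiableOn (s := {s : ℂ | θ < s.re})
  by_cases k : (κ : ℂ) * G 1 = 0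
  · have hU : {s : ℂ | θ < s.re} ∈ 𝓝 (1 : ℂ) :=
      (isOpen_lt continuous_const continuous_re).mem_nhds (by simpa using hθ)
    refine ⟨(0 : ℕ), by simp, wi_core r2 a2 hr2 r21 ha2 hc2 hs2 _ hC2 hθ
      (fun s => H s * G s + riemannZeta₁ s * dslope (fun s => κ * G s) 1 s)
      ((hH.mul hG).add (d1.mul ((Complex.differentiableOn_dslope hU).2 (hG.const_mul _)))) 0
      zero_le_one (fun s hs => ?_) (by simp)⟩
    have hs1 : s ≠ 1 := fun h => by simp [h] at hs
    have := sub_ne_zero.2 hs1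
    rw [eL s hs, riemannZeta_eq_inv_sub_mul hs1, dslope_of_ne _ hs1, slope_def_field, k]
    field_simp
    ring
  · refine ⟨(1 : ℕ), by simp, wi_core r2 a2 hr2 r21 ha2 hc2 hs2 _ hC2 hθ
      (fun s => ((s - 1) * H s + κ * riemannZeta₁ s) * G s)
      ((((differentiableOn_id.sub_const 1).mul hH).add (d1.const_mul _)).mul hG) 1 le_rfl
      (fun s hs => ?_) fun _ => by simpa using k⟩
    have hs1 : s ≠ 1 := fun h => by simp [h] at hs
    have := sub_ne_zero.2 hs1
    rw [eL s hs, riemannZeta_eq_inv_sub_mul hs1]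
    field_simp

end Pool.Agent.Spin.PP
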