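import Pool.Agent.Lib.MP_696deb_nt.Spin.PD
import Pool.Agent.Lib.MP_60ff09_nt.PP.A0
import Pool.Agent.Lib.MP_60ff09_nt.PP.A1

/-! The split primes that are one modulo four have density at most a twelfth. -/

set_option autoImplicit false

open scoped Classical
open Finset Filter Topology Asymptotics

namespace Pool.Agent.Spin

open PP

namespace Dat

variable (D : Dat)

theorem pp_zero (hN : ∀ x y : D.O, (4 : D.O) ∣ x - y → D.N x % 4 = D.N y % 4) {u : D.O}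
    (hu : D.N u % 4 = 3) {I : Finset (Fin 6 → ℕ)} {t : (Fin 6 → ℕ) → D.O}
    (hs : ∀ x, ∑ c ∈ I, (if ((4 : ℕ) : D.O) ∣ x + t c then (1 : ℝ) else 0) = 1) (x : D.O) :
    ∑ c ∈ I, chi (D.N (x + t c)) = 0 := by
  obtain ⟨w, hw⟩ : u ∣ (D.N u : D.O) := Ideal.mem_span_singleton.1 (Ideal.absNorm_mem _)
  obtain ⟨k, hk⟩ : ∃ k : ℕ, D.N u + 1 = 4 * k := ⟨(D.N u + 1) / 4, by omega⟩
  have e : u * w + 1 = 4 * k := by
    rw [← hw]
    exact_mod_cast congrArg (Nat.cast (R := D.O)) hk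
  have cu : chi (D.N u) = -1 := by simp [chi, hu]
  simp only [Nat.cast_ofNat] at hs
  have a1 : ∀ c, ∑ c' ∈ I, (if (4 : D.O) ∣ x + t c - u * (x + t c') then (1 : ℝ) else 0) = 1 := by
    intro c
    refine Eq.trans ?_ (hs (x + w * (x + t c)))
    refine sum_congr rfl fun c' _ => if_congr ⟨fun ⟨z, hz⟩ => ?_, fun ⟨z, hz⟩ => ?_⟩ rfl rfl
    · exact ⟨w * z + k * (x + t c'), by linear_combination w * hz + (x + t c') * e⟩
    · exact ⟨k * (x + t c) - u * z, by linear_combination (x + t c) * e - u * hz⟩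
  have a2 : ∀ c', ∑ c ∈ I, (if (4 : D.O) ∣ x + t c - u * (x + t c') then (1 : ℝ) else 0) = 1 := by
    intro c'
    refine Eq.trans ?_ (hs (x - u * (x + t c')))
    refine sum_congr rfl fun c _ => ?_
    rw [show x + t c - u * (x + t c') = x - u * (x + t c') + t c by ring]
  have b : ∑ c ∈ I, chi (D.N (x + t c)) = -∑ c ∈ I, chi (D.N (x + t c)) := by
    calc _ = ∑ c ∈ I, ∑ c' ∈ I, (if (4 : D.O) ∣ x + t c - u * (x + t c') then (1 : ℝ) else 0) *
          chi (D.N (x + t c)) := sum_congr rfl fun c _ => by rw [← sum_mul, a1, one_mul]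
      _ = ∑ c ∈ I, ∑ c' ∈ I, (if (4 : D.O) ∣ x + t c - u * (x + t c') then (1 : ℝ) else 0) *
          -chi (D.N (x + t c')) := by
          refine sum_congr rfl fun c _ => sum_congr rfl fun c' _ => ?_
          split_ifs with h
          · rw [chi_mod (hN _ _ h), D.N_mul, chi_mul, cu]
            ring
          · simp
      _ = _ := by
          rw [sum_comm, ← sum_neg_distrib]
          exact sum_congr rfl fun c' _ => by rw [← sum_mul, a2, one_mul]
  linarith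

theorem pp_chi (hN : ∀ x y : D.O, (4 : D.O) ∣ x - y → D.N x % 4 = D.N y % 4) {u : D.O}
    (hu : D.N u % 4 = 3) {L R : ℝ} {W : V → ℝ} (hR : 1 ≤ R) (hW : Wt L R W) :
    ∃ C : ℝ, ∀ Y : ℝ, 1 ≤ Y → |D.S W R Y fun x => chi (D.N x)| ≤ C * Y ^ 5 := by
  obtain ⟨C, hC, h⟩ := D.pb_reps
  obtain ⟨C', hC', h'⟩ := D.card_ball
  obtain ⟨I, t, hI, ht, hs⟩ := h 4 (by norm_num)
  have L0 : 0 ≤ L := (abs_nonneg _).trans (hW.bd 0)
  refine ⟨L * (C * 4) * (C' * (R + C * 4) ^ 6), fun Y hY => ?_⟩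
  have Y0 : 0 < Y := by linarith
  have e1 : ∑ c ∈ I, (D.S W R Y fun x => chi (D.N (x + t c))) = 0 := by
    simp only [S]
    rw [sum_comm]
    exact sum_eq_zero fun x _ => by rw [← mul_sum, D.pp_zero hN hu hs x, mul_zero]
  have e3 : ∀ c ∈ I, |(D.S W R Y fun x => chi (D.N (x + t c))) - D.S W R Y fun x => chi (D.N x)| ≤
      L * (C * 4) * (C' * (R + C * 4) ^ 6) * Y ^ 5 := by
    intro c hc
    have a := D.avg hW Y0 (fun x => chi (D.N x)) (fun _ => True) (fun x => chi_abs _)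
      (fun _ _ => trivial) (t c)
    refine a.trans ?_
    have b0 : D.sz (t c) ≤ C * 4 := by simpa using ht c hc
    have b1 : ((D.ball (R * Y + D.sz (t c))).card : ℝ) ≤ C' * ((R + C * 4) * Y) ^ 6 := by
      refine le_trans ?_ (h' _ (by nlinarith))
      have : D.ball (R * Y + D.sz (t c)) ⊆ D.ball ((R + C * 4) * Y) :=
        fun x hx => D.mem_ball.2 ((D.mem_ball.1 hx).trans (by nlinarith))
      exact_mod_cast card_le_card this
    have := D.sz_nonneg (t c)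
    calc _ ≤ L * (C * 4 / Y) * (C' * ((R + C * 4) * Y) ^ 6) := by
          refine mul_le_mul (by gcongr) (le_trans (Nat.cast_le.2 ?_) b1) (Nat.cast_nonneg _)
            (by positivity)
          exact @card_filter_le _ _ _ (_)
      _ = _ := by field_simp
  have c0 : (0 : ℝ) < I.card := by rw [hI]; positivity
  have e4 := (abs_sum_le_sum_abs _ _).trans (sum_le_sum e3)
  rw [sum_sub_distrib, e1, sum_const, sum_const, nsmul_eq_mul, nsmul_eq_mul, zero_sub, abs_neg,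
    abs_mul, abs_of_pos c0] at e4
  exact le_of_mul_le_mul_left e4 c0

theorem pp_sum (g : ℕ → ℝ) {R X Y : ℝ} {W : V → ℝ} {ψ : ℝ → ℝ} (hR : 1 ≤ R) (X1 : 1 ≤ X)
    (Y0 : 0 < Y) (Y6 : Y ^ 6 = X) (h1 : ∀ u, 2 * (1 / 8) ≤ u → u ≤ 1 → ψ u = 1)
    (hψ : ∀ x : D.O, x ≠ 0 → ∑ y ∈ (D.ball (R * Y)).filter fun y => Associated y x,
      W (Y⁻¹ • D.e y) = ψ (D.N x / Y ^ 6)) :
    (D.S (fun z => W z * pdψ (nV z)) R Y fun x => g (D.N x)) =
      rz (fun n => (D.Rn n).card * g n) X - 3 / 2 * rz (fun n => (D.Rn n).card * g n) (X / 2) +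
        1 / 2 * rz (fun n => (D.Rn n).card * g n) (X / 4) := by
  have X0 : 0 < X := by linarith
  have R6 : (1 : ℝ) ≤ R ^ 6 := one_le_pow₀ hR
  obtain ⟨K, hK⟩ := exists_nat_ge (R ^ 6 * X)
  have XK : X ≤ K := by nlinarith
  have e1 : (D.S (fun z => W z * pdψ (nV z)) R Y fun x => g (D.N x)) = ∑ m ∈ D.DU K,
      ∑ y ∈ (D.ball (R * Y)).filter fun y => Associated y m,
        W (Y⁻¹ • D.e y) * (pdψ (D.N m / X) * g (D.N m)) := by
    simp only [sum_filter]
    rw [sum_comm, S]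
    refine sum_congr rfl fun x hx => ?_
    rw [D.nV_smul Y0, Y6, mul_assoc]
    by_cases x0 : x = 0
    · rw [x0, D.N_eq_zero.2 rfl, pdψ_lo (by norm_num), zero_mul, mul_zero]
      exact (sum_eq_zero fun m hm => if_neg fun c =>
        (D.mem_DU.1 hm).1.1 ((associated_zero_iff_eq_zero m).1 c.symm)).symm
    · obtain ⟨m, hm, a⟩ := D.exists_rp x0
      have hm' : m ∈ D.DU K := by
        refine D.mem_DU.2 ⟨hm, ?_⟩
        rw [D.N_assoc a]
        refine (D.N_le x).trans ((pow_le_pow_left₀ (D.sz_nonneg x) (D.mem_ball.1 hx) 6).trans ?_)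
        rwa [mul_pow, Y6]
      rw [sum_eq_single m (fun m' h' ne => if_neg fun c =>
        ne (D.rp_eq (D.mem_DU.1 h').1 hm (c.symm.trans a.symm))) (fun c => absurd hm' c),
        if_pos a.symm, D.N_assoc a]
  have e2 : (D.S (fun z => W z * pdψ (nV z)) R Y fun x => g (D.N x)) =
      ∑ n ∈ Icc 1 K, ((D.Rn n).card : ℝ) * (pdψ (n / X) * g n) := by
    rw [e1, ← sum_fiberwise_of_maps_to (s := D.DU K) (t := Icc 1 K) (g := D.N) fun m hm =>
      mem_Icc.2 ⟨Nat.pos_of_ne_zero (mt D.N_eq_zero.1 (D.mem_DU.1 hm).1.1),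
        by exact_mod_cast (D.mem_DU.1 hm).2⟩]
    refine sum_congr rfl fun n hn => ?_
    rw [D.Rn_eq (by exact_mod_cast (mem_Icc.1 hn).2), ← nsmul_eq_mul, ← sum_const]
    refine sum_congr rfl fun m hm => ?_
    obtain ⟨m1, m2⟩ := D.mem_Rn.1 hm
    rw [← sum_mul, hψ m m1.1, Y6, m2]
    rcases le_total ((n : ℝ) / X) (1 / 4) with k | k
    · rw [pdψ_lo k, zero_mul, mul_zero]
    rcases le_total 1 ((n : ℝ) / X) with k' | k'
    · rw [pdψ_hi k', zero_mul, mul_zero]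
    rw [h1 _ (by linarith) k', one_mul]
  rw [e2, rz_eq _ X0 XK, rz_eq _ (by positivity) (K := K) (by linarith),
    rz_eq _ (by positivity) (K := K) (by linarith), mul_sum, mul_sum, ← sum_sub_distrib,
    ← sum_add_distrib]
  refine sum_congr rfl fun n _ => ?_
  rw [pdψ, show (n : ℝ) / (X / 2) = 2 * (n / X) by field_simp,
    show (n : ℝ) / (X / 4) = 4 * (n / X) by field_simp]
  ring

theorem pp_count (hN : ∀ x y : D.O, (4 : D.O) ∣ x - y → D.N x % 4 = D.N y % 4) {u : D.O}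
    (hu : D.N u % 4 = 3) : (fun n : ℕ => ∑ k ∈ Icc 1 n, chi k * ((D.Rn k).card : ℝ)) =O[atTop]
      fun n => (n : ℝ) ^ (11 / 12 : ℝ) := by
  obtain ⟨L, R, W, ψ, hR, hW, -, -, Wη, -, h1, -, hψ⟩ := D.part (η := 1 / 8) (by norm_num)
  obtain ⟨L', hW'⟩ := pd_wt hR hW
  obtain ⟨κ, C, hC, h⟩ := D.pb_lim hR hW'
  obtain ⟨C', h'⟩ := D.pp_chi hN hu hR hW'
  have key : ∀ (c : ℝ), |c| ≤ 1 → (fun n : ℕ => ∑ k ∈ Icc 1 n,
      ((D.Rn k).card : ℝ) * (1 + c * chi k) - 16 / 3 * κ * n) =O[atTop]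
        fun n => (n : ℝ) ^ (11 / 12 : ℝ) := fun c hc => by
    have hb : ∀ k, |c * chi k| ≤ 1 := fun k => by
      rw [abs_mul]
      exact mul_le_one₀ hc (abs_nonneg _) (chi_abs k)
    refine sharp2 (fun n => mul_nonneg (Nat.cast_nonneg _) (by linarith [(abs_le.1 (hb n)).1]))
      (C := C + |C'|) fun X X1 => ?_
    have X0 : 0 < X := by linarith
    obtain ⟨Y, Y1, Y6, Y5⟩ : ∃ Y : ℝ, 1 ≤ Y ∧ Y ^ 6 = X ∧ Y ^ 5 = X ^ (5 / 6 : ℝ) := by
      refine ⟨X ^ (1 / 6 : ℝ), Real.one_le_rpow X1 (by norm_num), ?_, ?_⟩ <;>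
        rw [← Real.rpow_natCast, ← Real.rpow_mul X0.le] <;> norm_num
    have Y0 : 0 < Y := by linarith
    rw [← D.pp_sum (fun k => 1 + c * chi k) hR X1 Y0 Y6 h1 (hψ Y Y0), ← Y5, ← Y6]
    have e : (D.S (fun z => W z * pdψ (nV z)) R Y fun x => 1 + c * chi (D.N x)) - κ * Y ^ 6 =
        ((D.S (fun z => W z * pdψ (nV z)) R Y fun _ => 1) - κ * Y ^ 6) +
          c * D.S (fun z => W z * pdψ (nV z)) R Y fun x => chi (D.N x) := by
      simp only [S, mul_add, sum_add_distrib, mul_sum, mul_left_comm c]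
      ring
    rw [e, add_mul]
    refine (abs_add_le _ _).trans (add_le_add (h Y Y1) ?_)
    rw [abs_mul]
    refine (mul_le_of_le_one_left (abs_nonneg _) hc).trans ((h' Y Y1).trans ?_)
    exact mul_le_mul_of_nonneg_right (le_abs_self _) (by positivity)
  refine ((key 1 (by simp)).sub (key 0 (by simp))).congr_left fun n => ?_
  rw [sub_sub_sub_cancel_right, ← sum_sub_distrib]
  exact sum_congr rfl fun k _ => by ring

/-- The primes that are norms and one modulo four have upper density at most a twelfth. -/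
theorem spl1_le (hN : ∀ x y : D.O, (4 : D.O) ∣ x - y → D.N x % 4 = D.N y % 4) {u : D.O}
    (hu : D.N u % 4 = 3) {ε : ℝ} (h : 0 < ε) : ∀ᶠ X : ℕ in atTop,
    ∑ p ∈ (range (X + 1)).filter fun p => p.Prime ∧ p % 4 = 1 ∧ D.Spl p, Real.log p ≤
      (1 / 12 + ε) * X := by
  obtain ⟨κ, hκ⟩ := D.pd_count
  obtain ⟨C, hC⟩ := D.pd_cheb
  obtain ⟨m, hm, a⟩ := D.exists_rp (one_ne_zero (α := D.O))
  have r0 : D.Rn 0 = ∅ := eq_empty_of_forall_notMem fun m hm =>
    (D.mem_Rn.1 hm).1.1 (D.N_eq_zero.1 (D.mem_Rn.1 hm).2)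
  have a0 : D.sdA (0 : ℕ) 0 = 0 := by
    rw [sdA, ← Rn, r0, sum_empty]
  obtain ⟨A, A1, hA⟩ := landau2 ⟨fun n => (D.Rn n).card, by simp [r0]⟩ ⟨fun n => D.sdA n n, a0⟩
    (fun n => Nat.cast_nonneg _) (by
      change (0 : ℝ) < (D.Rn 1).card
      exact_mod_cast card_pos.2 ⟨m, D.mem_Rn.2 ⟨hm, by
        rw [D.N_assoc a]; exact D.N_eq_one.2 isUnit_one⟩⟩)
    (fun n => D.sd_A0 _ n) D.pd_conv C hC (by norm_num) (by norm_num) hκ (D.pp_count hN hu)
  have cN : Tendsto (fun X : ℕ => (X : ℝ)) atTop atTop := tendsto_natCast_atTop_atTop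
  filter_upwards [(hA.comp cN).eventually (gt_mem_nhds (show A < 1 + 6 * ε by linarith)),
    cN.eventually_ge_atTop (2 * (∑ k ∈ D.M.divisors, Real.log k) / ε), eventually_ge_atTop 1]
    with X v1 v2 X1
  have X0 : (0 : ℝ) < X := by exact_mod_cast X1
  simp only [Function.comp, Nat.floor_natCast, ArithmeticFunction.coe_mk] at v1
  rw [div_lt_iff₀ X0] at v1
  rw [div_le_iff₀ h] at v2
  set P := (range (X + 1)).filter fun p => p.Prime ∧ p % 4 = 1 ∧ D.Spl p with hP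
  have b1 : ∑ p ∈ P.filter (· ∣ D.M), Real.log p ≤ ∑ k ∈ D.M.divisors, Real.log k :=
    sum_le_sum_of_subset_of_nonneg (fun p hp => Nat.mem_divisors.2 ⟨(mem_filter.1 hp).2, D.M0⟩)
      fun k _ _ => sd_log k
  have b2 : 12 * ∑ p ∈ P.filter (¬ · ∣ D.M), Real.log p ≤
      ∑ k ∈ Icc 1 X, (D.sdA k k + chi k * D.sdA k k) := by
    rw [mul_sum]
    refine le_trans (sum_le_sum fun p hp => ?_) (sum_le_sum_of_subset_of_nonneg
      (s := P.filter (¬ · ∣ D.M)) (fun p hp => ?_) fun k _ _ => ?_)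
    · obtain ⟨h1, h2⟩ := mem_filter.1 hp
      obtain ⟨-, h3, h5, h4⟩ := mem_filter.1 h1
      rw [D.sd_Aprime h3 h2 le_rfl, if_pos h4, chi, if_pos h5]
      linarith
    · obtain ⟨h1, h3, -⟩ := mem_filter.1 (mem_filter.1 hp).1
      exact mem_Icc.2 ⟨h3.pos, Nat.lt_succ_iff.1 (mem_range.1 h1)⟩
    · have := abs_le.1 (chi_abs k)
      have := D.sd_A0 k k
      nlinarith
  rw [← sum_filter_add_sum_filter_not P (· ∣ D.M)]
  linarith

end Dat

end Pool.Agent.Spin
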