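import Pool.Agent.Lib.MP_696deb_nt.Spin.FI

/-! From logarithmic weights to the share among the primes that are one modulo four. -/

set_option autoImplicit false

open scoped Classical
open Finset Filter Topology

namespace Pool.Agent.Spin.PP

theorem th1 : Tendsto (fun X : ℕ => (∑ p ∈ (range (X + 1)).filter fun p => p.Prime ∧ p % 4 = 1,
    Real.log p) / X) atTop (𝓝 (1 / 2)) := by
  have h := (Pool.Agent.Shared.PNT.pnt_theta_residueClass (q := 4) (a := 1) isUnit_one).comp
    tendsto_natCast_atTop_atTop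
  rw [show ((Nat.totient 4 : ℕ) : ℝ)⁻¹ = 1 / 2 by
    rw [show Nat.totient 4 = 2 by decide]; norm_num] at h
  refine h.congr fun X => ?_
  simp only [Function.comp, Nat.floor_natCast]
  congr 1
  refine sum_congr ?_ fun _ _ => rfl
  ext p
  simp only [mem_filter, mem_Icc, mem_range, Nat.lt_succ_iff]
  have e : (p : ZMod 4) = 1 ↔ p % 4 = 1 := by
    rw [← Nat.cast_one (R := ZMod 4), ZMod.natCast_eq_natCast_iff']
  rw [e]
  exact ⟨fun h => ⟨h.1.2, h.2⟩, fun h => ⟨⟨h.2.1.pos, h.1⟩, h.2⟩⟩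

theorem th0 : Tendsto (fun X : ℕ => (∑ p ∈ (range (X + 1)).filter fun p => p.Prime,
    Real.log p) / X) atTop (𝓝 1) := by
  refine (Pool.Agent.Shared.PNT.pnt_theta.comp tendsto_natCast_atTop_atTop).congr fun X => ?_
  simp only [Function.comp]
  rw [Chebyshev.theta_eq_sum_Icc, Nat.floor_natCast, Nat.range_succ_eq_Icc_zero]

theorem rel_count (G : ℕ → Prop) (h : ∀ ε : ℝ, 0 < ε → ∀ᶠ X : ℕ in atTop,
      ∑ p ∈ (range (X + 1)).filter fun p => p.Prime ∧ p % 4 = 1 ∧ ¬ G p, Real.log p ≤
        (1 / 24 + ε) * X) {ε : ℝ} (hε : 0 < ε) : ∀ᶠ X : ℕ in atTop,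
    (11 / 12 - ε) * (Set.ncard {l : ℕ | l ≤ X ∧ l.Prime ∧ l % 4 = 1} : ℝ) ≤
      (Set.ncard {l : ℕ | l ≤ X ∧ l.Prime ∧ l % 4 = 1 ∧ G l} : ℝ) := by
  have key : ∀ (P : ℕ → Prop) [DecidablePred P] (X : ℕ), (Set.ncard {l : ℕ | l ≤ X ∧ P l} : ℝ) =
      (((range (X + 1)).filter P).card : ℝ) := fun P _ X => by
    rw [← Set.ncard_coe_finset]
    congr 2
    ext l
    simp only [Set.mem_ofPred_eq, coe_filter, mem_range, Nat.lt_succ_iff]
  have d : 0 < ε / 4 := by positivity
  have c1 := count_of_theta (fun p => p % 4 = 1) (c := 1 / 2) (by norm_num) (fun δ hδ => by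
    filter_upwards [th1.eventually (gt_mem_nhds (show 1 / 2 < 1 / 2 + δ by linarith)),
      eventually_ge_atTop 1] with X a1 X1
    rw [div_lt_iff₀ (by exact_mod_cast X1)] at a1
    exact le_trans (le_of_eq (by congr)) a1.le) d
  have c2 := count_of_theta (fun p => ¬ (p % 4 = 1 ∧ G p)) (c := 13 / 24) (by norm_num)
    (fun δ hδ => by
      filter_upwards [th1.eventually (lt_mem_nhds (show 1 / 2 - δ / 3 < 1 / 2 by linarith)),
        th0.eventually (gt_mem_nhds (show 1 < 1 + δ / 3 by linarith)), h (δ / 3) (by positivity),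
        eventually_ge_atTop 1] with X a1 a2 a3 X1
      rw [lt_div_iff₀ (by exact_mod_cast X1)] at a1
      rw [div_lt_iff₀ (by exact_mod_cast X1)] at a2
      rw [sum_filter] at a1 a2 a3 ⊢
      have e : ∀ p : ℕ, (if p.Prime ∧ ¬ (p % 4 = 1 ∧ G p) then Real.log p else 0) =
          (if p.Prime then Real.log p else 0) - (if p.Prime ∧ p % 4 = 1 then Real.log p else 0) +
            if p.Prime ∧ p % 4 = 1 ∧ ¬ G p then Real.log p else 0 := fun p => by
        by_cases k1 : p.Prime <;> by_cases k2 : p % 4 = 1 <;> by_cases k3 : G p <;>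
          simp [k1, k2, k3]
      have e2 := sum_congr (rfl : range (X + 1) = _) fun p _ => e p
      rw [sum_add_distrib, sum_sub_distrib] at e2
      refine le_trans (le_of_eq (by convert e2)) ?_
      linarith) d
  filter_upwards [c1, c2] with X a1 a2
  rw [key, key]
  have p0 : (0 : ℝ) ≤ Nat.primeCounting X := Nat.cast_nonneg _
  have e : (((range (X + 1)).filter fun l => l.Prime ∧ l % 4 = 1).card : ℝ) +
      ((range (X + 1)).filter fun l => l.Prime ∧ ¬ l % 4 = 1).card = Nat.primeCounting X := by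
    rw [Nat.primeCounting, Nat.primeCounting', Nat.count_eq_card_filter_range, ← filter_filter,
      ← filter_filter, ← Nat.cast_add, card_filter_add_card_filter_not]
  have a1' : (1 - 1 / 2 - ε / 4) * Nat.primeCounting X ≤
      (((range (X + 1)).filter fun l => l.Prime ∧ ¬ l % 4 = 1).card : ℝ) := by convert a1
  have a2' : (1 - 13 / 24 - ε / 4) * Nat.primeCounting X ≤
      (((range (X + 1)).filter fun l => l.Prime ∧ l % 4 = 1 ∧ G l).card : ℝ) := by
    simp only [not_not] at a2
    convert a2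
  rcases le_total (11 / 12 - ε) 0 with k | k
  · exact (mul_nonpos_of_nonpos_of_nonneg k (Nat.cast_nonneg _)).trans (Nat.cast_nonneg _)
  refine le_trans ?_ a2'
  refine (mul_le_mul_of_nonneg_left (show _ ≤ (1 / 2 + ε / 4) * (Nat.primeCounting X : ℝ) by
    linarith) k).trans ?_
  rw [← mul_assoc]
  exact mul_le_mul_of_nonneg_right (by nlinarith) p0

end Pool.Agent.Spin.PP
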