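import Pool.Agent.Lib.MP_60ff09_nt.PR.Both
import Pool.Agent.Lib.MP_60ff09_nt.PP.B

/-! The primes that are one modulo four and escape the descent for `l` or `-l`. -/

set_option autoImplicit false

open scoped Classical NumberTheorySymbols
open NumberField Finset Filter

namespace Pool.Agent.B6.S.SPN

open Pool.Agent.Spin

theorem dens24 {p q s : ℤ} {E : Fin 3 → ℤ} {P : ℤ → Prop} (ok : (p = -1 ∧ q = 0) ∨ (p = 1 ∧ q = 2))
    (h1 : Odd s) (h2 : s ^ 2 + p = q * s) (h3 : 4 * p ^ 2 - 6 * q ∣ 8) (lk : Link p q E P) {M : ℕ}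
    (M0 : M ≠ 0) (hM : 8 * dg p q * nm p q ![E 1 - 2 * p * E 2, -E 2, 0] ∣ (M : ℤ))
    {j : ℕ} {r r' : ℤ} (j1 : j.Prime) (j2 : ¬ j ∣ M) (j3 : j % 4 = 3) (j4 : (j : ℤ) ∣ gv p q r)
    (j5 : (j : ℤ) ∣ gv p q r') (j6 : ¬ (j : ℤ) ∣ r - r') {ε : ℝ} (hε : 0 < ε) :
    ∀ᶠ X : ℕ in atTop,
      ∑ l ∈ (range (X + 1)).filter fun l : ℕ => l.Prime ∧ l % 4 = 1 ∧ ¬ (P l ∧ P (-l)),
        Real.log l ≤ (1 / 24 + ε) * X := by
  obtain ⟨L, _, _, t, σ, ρ, h⟩ := exists_Sx ok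
  have := h.pid
  have := h.tc
  have bx := bx_of h h1 h2 h3
  obtain ⟨κ, k1, k2, k3, N, k4⟩ := bx.kap' lk.both M0 hM (fun _ => 1) (fun _ => .inl rfl)
    fun _ _ _ => rfl
  have a : 8 * dg p q ∣ (M : ℤ) := (dvd_mul_right _ _).trans hM
  have a8 : 8 ∣ M := by exact_mod_cast (dvd_mul_right _ _).trans a
  let D := h.dat M M0 a8 ((mul_dvd_mul_right (by norm_num) _).trans a)
  have d4 : (4 : 𝓞 L) ∣ M := by
    simpa using map_dvd (Nat.castRingHom (𝓞 L)) (Dvd.dvd.trans (by norm_num : 4 ∣ 8) a8)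
  have d8 : 8 * (t 0 - t 1) ∣ (M : 𝓞 L) := by
    have b : t 0 - t 1 ∣ (dg p q : ℤ) := by
      rw [← dl_sq h.s1 h.s2 h.s3, dl]
      exact (((dvd_mul_right _ _).mul_right _)).trans (dvd_pow_self _ two_ne_zero)
    have c : ((8 * dg p q : ℤ) : 𝓞 L) ∣ M := by
      simpa using map_dvd (Int.castRingHom (𝓞 L)) a
    rw [Int.cast_mul, Int.cast_ofNat] at c
    exact (mul_dvd_mul_left 8 b).trans c
  obtain ⟨u, hu⟩ := bx.spl j1 j2 d8 j4 j5 j6
  obtain ⟨κ', hκ⟩ : ∃ κ' : 𝓞 L → ℝ, ∀ x,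
      κ' x = if Ideal.absNorm (Ideal.span {x}) % 4 = 1 then κ x else 0 := ⟨_, fun _ => rfl⟩
  have z : ∀ x, κ' x ≠ 0 → Ideal.absNorm (Ideal.span {x}) % 4 = 1 := fun x e =>
    by_contra fun c => e (by rw [hκ, if_neg c])
  have per : D.Per κ' := ⟨fun x => by
      rw [hκ]
      split_ifs
      · exact k1 x
      · simp, fun x y c => by rw [hκ, hκ, bx.norm_mod (d4.trans c), k2 x y c],
    fun x e => k3 x fun c => e (by rw [hκ, c, ite_self])⟩
  have e3 : 0 < ε / 3 := by positivity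
  filter_upwards [D.spin_halfZ per (Z := fun n => n % 4 = 1) z e3,
    D.spl1_le (fun x y c => bx.norm_mod c) (u := u) ((congrArg (· % 4) hu).trans j3) e3,
    tendsto_natCast_atTop_atTop.eventually_ge_atTop
      (3 * (∑ l ∈ range (N + 1), Real.log l) / ε)] with X a1 a3 a2
  rw [div_le_iff₀ hε] at a2
  have b1 := sum_exc (A := fun l : ℕ => l.Prime ∧ l % 4 = 1 ∧ ¬ (P l ∧ P (-l)))
    (B := fun l => l.Prime ∧ D.Bad κ' l) N X fun l hl ⟨c1, c2, c3⟩ => by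
      obtain ⟨e1, e2⟩ := k4 l c1 hl fun e => c3 (by simpa using e (by simpa using c2))
      refine ⟨c1, e1, fun x hx => ?_⟩
      have hx' : Ideal.absNorm (Ideal.span {x}) = l := hx
      have := e2 x hx'
      rw [← if_pos (c := Ideal.absNorm (Ideal.span {x}) % 4 = 1) (t := κ x) (e := 0)
        (by rw [hx', c2]), ← hκ] at this
      exact this
  refine le_trans (le_of_eq ?_) (b1.trans ?_)
  · congr
  · have a1' : ∑ l ∈ (range (X + 1)).filter fun l => l.Prime ∧ D.Bad κ' l, Real.log l ≤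
        1 / 2 * ∑ l ∈ (range (X + 1)).filter fun l : ℕ => l.Prime ∧ l % 4 = 1 ∧ D.Spl l,
          Real.log l + ε / 3 * X := by convert a1
    have a3' : ∑ l ∈ (range (X + 1)).filter fun l : ℕ => l.Prime ∧ l % 4 = 1 ∧ D.Spl l,
        Real.log l ≤ (1 / 12 + ε / 3) * X := by convert a3
    have e : (∑ l ∈ @filter _ (fun l => l.Prime ∧ D.Bad κ' l) (fun _ => Classical.propDecidable _)
        (range (X + 1)), Real.log l) =
        ∑ l ∈ (range (X + 1)).filter fun l => l.Prime ∧ D.Bad κ' l, Real.log l := by congr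
    rw [e]
    have x0 : 0 ≤ ε * X := by positivity
    linarith

end Pool.Agent.B6.S.SPN
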