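import Pool.Agent.Lib.MP_60ff09_nt.PR.Top
import Pool.Agent.Lib.MP_60ff09_nt.PP.C
import Pool.Agent.Lib.MP_60ff09_nt.PP.D

/-! The conjecture of Beilinson for eleven twelfths of the primes that are one modulo four. -/

set_option autoImplicit false

open scoped Classical NumberTheorySymbols
open Finset Filter NumberField
open Pool.Agent.Lib.MP_696deb_nt Pool.Agent.B6 Pool.Agent.B4 Pool.Agent.B6.S.SPN

namespace Pool.Agent.Lib.MP_60ff09_nt.PR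

open V6

/-- The conclusion for the curve `W` of conductor `N`. -/
def Goal2 (N : ℕ) (W : WeierstrassCurve ℤ) : Prop :=
  ∃ S : Set ℕ, (∀ ε : ℝ, 0 < ε → ∀ᶠ X : ℕ in atTop,
      (11 / 12 - ε) * (Set.ncard {l : ℕ | l ≤ X ∧ l.Prime ∧ l % 4 = 1} : ℝ) ≤
        (Set.ncard {l : ℕ | l ≤ X ∧ l.Prime ∧ l % 4 = 1 ∧ l ∈ S} : ℝ)) ∧
    ∀ d : Fin 4 → ℤ, (∀ i, (d i).natAbs ∈ S) → HoldsN (W.map (Int.castRingHom ℚ)) N (ap W) d
      (∑ i, if J(((d i).natAbs : ℤ) | N) = 1 then 0 else 1)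

theorem goal2_of [Cs] (hp : NN.Prime) (h3 : NN % 4 = 3) {D : GE.MD Wu NN} (n : New D)
    (k : ∀ d, Squarefree d → B7.Cnv D.c d) (c2 : D.c 2 = ap WZ 2) (cN : ap WZ NN = 1)
    {p q s : ℤ} {E : Fin 3 → ℤ} (ok : (p = -1 ∧ q = 0) ∨ (p = 1 ∧ q = 2))
    (a1 : Odd s) (a2 : s ^ 2 + p = q * s) (a3 : 4 * p ^ 2 - 6 * q ∣ 8) (lk : Link p q E Cork)
    {M : ℕ} (M0 : M ≠ 0) (hM : 8 * dg p q * nm p q ![E 1 - 2 * p * E 2, -E 2, 0] ∣ (M : ℤ))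
    {j : ℕ} {r r' : ℤ} (j1 : j.Prime) (j2 : ¬ j ∣ M) (j3 : j % 4 = 3) (j4 : (j : ℤ) ∣ gv p q r)
    (j5 : (j : ℤ) ∣ gv p q r') (j6 : ¬ (j : ℤ) ∣ r - r') : Goal2 NN WZ := by
  refine ⟨{l | l.Prime ∧ NN < l ∧ Cork l ∧ Cork (-l)}, fun ε hε => ?_,
    fun d hd => core hp h3 n k c2 cN hd⟩
  refine Pool.Agent.Spin.PP.rel_count
    (fun l => l ∈ {l : ℕ | l.Prime ∧ NN < l ∧ Cork l ∧ Cork (-l)}) (fun δ hδ => ?_) hε
  filter_upwards [dens24 (P := fun d => NN < d.natAbs ∧ Cork d) ok a1 a2 a3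
    (lk.mono NN fun _ _ h c => ⟨h, c⟩) M0 hM j1 j2 j3 j4 j5 j6 hδ] with X hX
  refine le_trans (sum_le_sum_of_subset_of_nonneg (fun l hl => ?_)
    fun l _ _ => Real.log_natCast_nonneg l) hX
  simp only [mem_filter] at hl ⊢
  obtain ⟨b1, b2, b3, b4⟩ := hl
  exact ⟨b1, b2, b3, fun c => b4 ⟨b2, by simpa using c.1.1, c.1.2, c.2.2⟩⟩

theorem goal2_11 : Goal2 11 ⟨0, -1, 1, -10, -20⟩ := by
  obtain ⟨D, n, e, k⟩ := @new_of cs11 _ _
    (@B7.Sq.mk cs11 _ (by norm_num) rfl (by decide) (by decide)) (by decide) B7.md11h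
  obtain ⟨_, _, h⟩ := pk11
  exact @goal2_of cs11 Nat.prime_eleven rfl D n k (e.trans ap11_2.symm) ap11_11 _ _ (-1) _
    (.inl ⟨rfl, rfl⟩) (by decide) (by decide) (by decide) (@Pk.link _ _ _ _ _ _ cs11.toCw h) 340736
    (by norm_num) (by decide) 47 22 31 (by norm_num) (by norm_num) (by norm_num)
    (by norm_num [gv]) (by norm_num [gv]) (by norm_num)

theorem goal2_19 : Goal2 19 ⟨0, 1, 1, -9, -15⟩ := by
  obtain ⟨D, n, e, k⟩ := @new_of cs19 _ _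
    (@B7.Sq.mk cs19 _ (by norm_num) rfl (by decide) (by decide)) (by decide) B7.md19h
  obtain ⟨_, _, h⟩ := pk19
  exact @goal2_of cs19 (by norm_num : Nat.Prime 19) rfl D n k (e.trans ap19_2.symm) ap19_19 _ _ 1 _
    (.inr ⟨rfl, rfl⟩) (by decide) (by decide) (by decide) (@Pk.link _ _ _ _ _ _ cs19.toCw h) 92416
    (by norm_num) (by decide) 23 10 15 (by norm_num) (by norm_num) (by norm_num)
    (by norm_num [gv]) (by norm_num [gv]) (by norm_num)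

end Pool.Agent.Lib.MP_60ff09_nt.PR
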